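import Pool.Agent.MZ54.Mult
import Pool.Agent.MZ54.Dob48
import Pool.Agent.MZ54.End48

/-! MP_3149b0: the multiplicity of a zero of a `{-1,0,1}` polynomial in the punctured open unit
disc is at most polylogarithmic in the degree of the zero (and does not depend on the
polynomial). -/

set_option autoImplicit false

namespace Pool.Agent.Results.MP_3149b0_an.DegreeBound

open Polynomial Pool.Agent.MZ54

/-- There is an absolute constant `C` such that for every nonzero polynomial `p` with all
coefficients in `{-1,0,1}` and every zero `z` of `p` with `0 < |z| < 1`: `z` is an algebraic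
integer, its degree `D` over `ℚ` is at least `2`, and the multiplicity of `z` as a zero of `p` is
at most `C (log (D + 1)) ^ 4 / (log log (D + 1)) ^ 3`. -/
theorem result : ∃ C : ℝ, 0 < C ∧
    ∀ p : ℂ[X], p ≠ 0 → (∀ i : ℕ, p.coeff i ∈ ({-1, 0, 1} : Set ℂ)) →
    ∀ z : ℂ, 0 < ‖z‖ → ‖z‖ < 1 → p.eval z = 0 →
    ∀ D : ℕ, D = (minpoly ℚ z).natDegree →
      IsIntegral ℤ z ∧ 2 ≤ D ∧
      (p.rootMultiplicity z : ℝ) ≤
        C * (Real.log ((D : ℝ) + 1)) ^ 4 / (Real.log (Real.log ((D : ℝ) + 1))) ^ 3 := by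
  classical
  obtain ⟨c, hc0, hdob⟩ := dob48
  obtain ⟨C₀, hC, hend⟩ := end48 c hc0
  refine ⟨C₀, hC, ?_⟩
  intro p hp hc z hz0 hz1 hz D hD
  have hlift : ∃ P : ℤ[X], cpx P = p := by
    have h1 : p ∈ lifts (Int.castRingHom ℂ) := by
      rw [lifts_iff_coeff_lifts]
      intro n
      rcases hc n with h | h | h
      · exact ⟨-1, by rw [h]; simp⟩
      · exact ⟨0, by rw [h]; simp⟩
      · exact ⟨1, by rw [h]; simp⟩
    exact (mem_lifts p).mp h1
  obtain ⟨P, hPp⟩ := hlift
  have hP : P ≠ 0 := by
    rintro rfl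
    apply hp
    rw [← hPp, cpx, Polynomial.map_zero]
  have hcP : ∀ j, P.coeff j = -1 ∨ P.coeff j = 0 ∨ P.coeff j = 1 := by
    intro j
    have h1 : ((P.coeff j : ℤ) : ℂ) = p.coeff j := by rw [← hPp, cpx, coeff_map]; rfl
    rcases hc j with h | h | h
    · left
      rw [h] at h1
      exact_mod_cast h1
    · right; left
      rw [h] at h1
      exact_mod_cast h1
    · right; right
      rw [h] at h1
      exact_mod_cast h1
  have hm : 0 < p.rootMultiplicity z := (rootMultiplicity_pos hp).mpr hz
  have hdvd : (X - C z) ^ p.rootMultiplicity z ∣ cpx P := by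
    rw [hPp]; exact pow_rootMultiplicity_dvd p z
  obtain ⟨hint, hmon, hnorm, hzr, hbound⟩ := int_version P hP hcP z hz0 hz1 _ hm hdvd
  have hmonC : (cpx (minpoly ℤ z)).Monic := hmon.map _
  have hM1 : 1 < Mz z := one_lt_mahler _ hmonC hnorm z hzr hz1
  have hDz : D = (minpoly ℤ z).natDegree := by
    rw [hD, minpoly_rat z hint, hmon.natDegree_map]
  have hl : 0 < Real.log (Mz z) := Real.log_pos hM1
  -- the degree is at least two
  have hD2 : 2 ≤ D := by
    by_contra hcon
    have h1 : 0 < (minpoly ℤ z).natDegree := minpoly.natDegree_pos hint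
    have h2 : (minpoly ℤ z).natDegree = 1 := by omega
    have h3 : (cpx (minpoly ℤ z)).natDegree = 1 := by rw [cpx, hmon.natDegree_map, h2]
    have h4 := eval_minpoly z
    rw [eval_eq_sum_range, h3, Finset.sum_range_succ, Finset.sum_range_one, pow_zero, mul_one,
      pow_one] at h4
    have h5 : (cpx (minpoly ℤ z)).coeff 1 = 1 := by
      have := hmonC.coeff_natDegree
      rwa [h3] at this
    rw [h5, one_mul] at h4
    have h6 : z = -(cpx (minpoly ℤ z)).coeff 0 := by linear_combination h4
    have h7 : ‖z‖ = 1 := by rw [h6, norm_neg, hnorm]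
    linarith
  refine ⟨hint, hD2, ?_⟩
  have hK : innerCount (cpx (minpoly ℤ z)) ≤ D := by
    rw [innerCount, hDz, ← hmon.natDegree_map (Int.castRingHom ℂ)]
    exact (Multiset.countP_le_card _ _).trans (card_roots' _)
  have h := hend (D + 1) (p.rootMultiplicity z) (Real.log (Mz z)) (by omega) hl ?_ ?_
  · push_cast at h
    exact h
  · intro k hk hDk
    exact hdob (minpoly ℤ z) hmon (minpoly.irreducible hint) hM1 k hk (by omega)
  · have hKr : (innerCount (cpx (minpoly ℤ z)) : ℝ) ≤ ((D + 1 : ℕ) : ℝ) := by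
      exact_mod_cast hK.trans (Nat.le_succ D)
    have h1 : Real.log (Mz z ^ p.rootMultiplicity z) ≤
        Real.log (1 + ((D + 1 : ℕ) : ℝ) / Real.log (Mz z)) := by
      apply Real.log_le_log (by positivity)
      refine hbound.trans ?_
      gcongr
    rwa [Real.log_pow] at h1

end Pool.Agent.Results.MP_3149b0_an.DegreeBound
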