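import Pool.Agent.MZ54.Mult2

/-! MP_3149b0: the multiplicity of a zero of a `{-1,0,1}` polynomial in the open unit disc is
bounded in terms of the Mahler measure of the zero and of the number of its conjugates in the
disc. -/

set_option autoImplicit false

namespace Pool.Agent.Results.MP_3149b0_an.MahlerBound

open Polynomial Pool.Agent.MZ54

/-- Let `p` be a nonzero polynomial with all coefficients in `{-1,0,1}` and `z` a zero of `p` with
`0 < |z| < 1` and multiplicity `m`. Then `z` is an algebraic integer; if `M` is the Mahler measure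
of its minimal polynomial over `ℤ`, and `K` the number of roots of this minimal polynomial in the
open unit disc, then `1 < M` and
`M ^ (2 m) ≤ (m K + 1) ^ (m K + 1) / (m K) ^ (m K)`. -/
theorem result (p : ℂ[X]) (hp : p ≠ 0) (hc : ∀ i : ℕ, p.coeff i ∈ ({-1, 0, 1} : Set ℂ))
    (z : ℂ) (hz0 : 0 < ‖z‖) (hz1 : ‖z‖ < 1) (hz : p.eval z = 0)
    (m K : ℕ) (hm : m = p.rootMultiplicity z)
    (hK : K = {w : ℂ | aeval w (minpoly ℤ z) = 0 ∧ ‖w‖ < 1}.ncard)
    (M : ℝ) (hM : M = ((minpoly ℤ z).map (Int.castRingHom ℂ)).mahlerMeasure) :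
    IsIntegral ℤ z ∧ 1 < M ∧
      M ^ (2 * m) ≤ ((m : ℝ) * K + 1) ^ (m * K + 1) / ((m : ℝ) * K) ^ (m * K) := by
  obtain ⟨hm0, hint, hmon, hnorm, hzr, g, hg1, hg2⟩ := complex_data p hp hc z hz0 hz1 hz
  have hmonC : (cpx (minpoly ℤ z)).Monic := hmon.map _
  have hM1 : 1 < M := by
    rw [hM]
    exact one_lt_mahler _ hmonC hnorm z hzr hz1
  refine ⟨hint, hM1, ?_⟩
  rw [← hm] at hg1 hg2 hm0
  have hb := mult_bound_sharp (cpx (minpoly ℤ z)) g m hm0 hmonC hnorm hg1 hg2 z hzr hz1
  rw [← ncard_eq_innerCount z hint, ← hK] at hb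
  have hKpos : 0 < K := by
    rw [hK, ncard_eq_innerCount z hint]
    exact innerCount_pos _ z hzr hz1
  have hpos : (0 : ℝ) < ((m : ℝ) * K) ^ (m * K) := by positivity
  rw [le_div_iff₀ hpos, hM]
  push_cast at hb
  exact hb

end Pool.Agent.Results.MP_3149b0_an.MahlerBound
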