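import Pool.Agent.MZ54.NonRec

/-! MP_3149b0: zeros of `{-1,0,1}` polynomials whose minimal polynomial is not reciprocal have
multiplicity at most logarithmic in the number of their conjugates in the unit disc. -/

set_option autoImplicit false

namespace Pool.Agent.Results.MP_3149b0_an.NonReciprocal

open Polynomial

/-- Let `p` be a nonzero polynomial with all coefficients in `{-1,0,1}` and `z` a zero of `p` with
`0 < |z| < 1` such that `1/z` is not a root of the minimal polynomial of `z` over `ℤ`. Let `K` be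
the number of roots of this minimal polynomial in the open unit disc. Then the multiplicity of
`z` as a zero of `p` is less than `6 + 3 log K`. -/
theorem result (p : ℂ[X]) (hp : p ≠ 0) (hc : ∀ i : ℕ, p.coeff i ∈ ({-1, 0, 1} : Set ℂ))
    (z : ℂ) (hz0 : 0 < ‖z‖) (hz1 : ‖z‖ < 1) (hz : p.eval z = 0)
    (hnr : aeval z⁻¹ (minpoly ℤ z) ≠ 0)
    (K : ℕ) (hK : K = {w : ℂ | aeval w (minpoly ℤ z) = 0 ∧ ‖w‖ < 1}.ncard) :
    (p.rootMultiplicity z : ℝ) < 6 + 3 * Real.log K :=
  Pool.Agent.MZ54.nonrec_bound p hp hc z hz0 hz1 hz hnr K hK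

end Pool.Agent.Results.MP_3149b0_an.NonReciprocal
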