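import Pool.Agent.MZ54.Num48

/-! MP_3149b0: the multiplicity of a zero `z`, `0 < |z| < 1`, of a polynomial with coefficients of
modulus at most one and lowest nonzero coefficient of modulus one (in particular of every nonzero
`{-1,0,1}` polynomial) is less than `1.34 / (1 - |z|)`. -/

set_option autoImplicit false

namespace Pool.Agent.Results.MP_3149b0_an.SingleZero

open Polynomial Pool.Agent.MZ54

/-- Let `p` be a nonzero complex polynomial all of whose coefficients have modulus at most `1` and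
whose lowest nonzero coefficient has modulus `1`, and let `z` be a zero of `p` of multiplicity `m`,
`0 < |z| < 1`. Then `(1-|z|^2)^3 * ∑_{i<m} C(i+2,2) |z|^(2i) ≤ 1/2`, and hence
`(m+2) (1-|z|^2) ≤ 2.68` and `m < 1.34 / (1-|z|)`. -/
theorem result (p : ℂ[X]) (hp : p ≠ 0) (hc : ∀ i : ℕ, ‖p.coeff i‖ ≤ 1)
    (h0 : ‖p.coeff p.natTrailingDegree‖ = 1)
    (z : ℂ) (hz0 : 0 < ‖z‖) (hz1 : ‖z‖ < 1) (hz : p.eval z = 0) :
    (1 - ‖z‖ ^ 2) ^ 3 * ∑ i ∈ Finset.range (p.rootMultiplicity z),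
        (((i + 2).choose 2 : ℕ) : ℝ) * ‖z‖ ^ (2 * i) ≤ 1 / 2 ∧
      ((p.rootMultiplicity z : ℝ) + 2) * (1 - ‖z‖ ^ 2) ≤ 2.68 ∧
      (p.rootMultiplicity z : ℝ) < 1.34 / (1 - ‖z‖) := by
  set v := p.natTrailingDegree with hv
  set m := p.rootMultiplicity z with hm
  have hm1 : 1 ≤ m := (rootMultiplicity_pos hp).mpr hz
  have hz' : z ≠ 0 := norm_pos_iff.mp hz0
  -- divide by `X ^ v`
  have hXv : X ^ v ∣ p := by
    rw [X_pow_dvd_iff]
    intro d hd
    exact coeff_eq_zero_of_lt_natTrailingDegree hd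
  obtain ⟨p1, hp1⟩ := hXv
  have hcoef : ∀ i, p1.coeff i = p.coeff (i + v) := by
    intro i
    rw [hp1, mul_comm, coeff_mul_X_pow]
  have hdvd : (X - C z) ^ m ∣ p1 := by
    have h1 : (X - C z) ^ m ∣ X ^ v * p1 := by
      rw [← hp1]
      exact pow_rootMultiplicity_dvd p z
    have hcop : IsCoprime ((X - C z) ^ m) ((X : ℂ[X]) ^ v) := by
      apply IsCoprime.pow
      have h2 : IsCoprime (X - C z) (X - C (0 : ℂ)) :=
        isCoprime_X_sub_C_of_isUnit_sub (by rw [sub_zero]; exact hz'.isUnit)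
      rwa [C_0, sub_zero] at h2
    exact hcop.dvd_of_dvd_mul_left h1
  have hc1 : ∀ j, ‖p1.coeff j‖ ≤ 1 := fun j => by rw [hcoef]; exact hc _
  have h01 : ‖p1.coeff 0‖ = 1 := by rw [hcoef, zero_add]; exact h0
  obtain ⟨h2, h3⟩ := Kern.single_bound p1 h01 hc1 z hz1 m hm1 hdvd
  have h4 := Kern.single p1 h01 hc1 z hz1 m hm1 hdvd
  refine ⟨?_, h2, ?_⟩
  · simp_rw [pow_mul]
    exact h4
  · rw [lt_div_iff₀ (by linarith)]
    exact h3

end Pool.Agent.Results.MP_3149b0_an.SingleZero
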